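import Mathlib
import Pool.Agent.H.MP_44eb6b_gt.D

namespace Pool.Agent.Results.MP_8c4e2c_gt.CH

open Set Filter Topology Cardinal

theorem result (h : continuum.{0} = aleph 1) : ∃ (X : Type) (_ : TopologicalSpace X),
    T35Space X ∧
    (∀ S : Set {f : X → ℝ // Continuous f}, ∃ c ⊆ S, c.Countable ∧ S ⊆ closure c) ∧
    ¬ ∃ D : Set {f : X → ℝ // Continuous f}, D.Countable ∧ seqClosure D = Set.univ := by
  obtain ⟨X, t, h1, h2, h3⟩ := Pool.Agent.H.MP_44eb6b_gt.D.main h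
  refine ⟨X, t, h1, fun S => ?_, fun ⟨D, d1, d2⟩ => ?_⟩
  · obtain ⟨D, d1, d2, d3⟩ := h2 (Subtype.val '' S) (by rintro _ ⟨f, -, rfl⟩; exact f.2)
    refine ⟨Subtype.val ⁻¹' D, fun f hf => (Subtype.val_injective.mem_set_image).1 (d1 hf),
      d2.preimage Subtype.val_injective, fun f hf => ?_⟩
    rw [IsInducing.subtypeVal.closure_eq_preimage_closure_image]
    refine closure_mono (fun g hg => ?_) (d3 ⟨f, hf, rfl⟩)
    obtain ⟨g, -, rfl⟩ := d1 hg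
    exact ⟨g, hg, rfl⟩
  · obtain ⟨f, f1, f2⟩ := h3 (Subtype.val '' D) (by rintro _ ⟨f, -, rfl⟩; exact f.2) (d1.image _)
    obtain ⟨u, u1, u2⟩ := d2.ge (mem_univ ⟨f, f1⟩)
    exact f2 (fun n => u n) (fun n => ⟨_, u1 n, rfl⟩) (tendsto_subtype_rng.1 u2)

end Pool.Agent.Results.MP_8c4e2c_gt.CH
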